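import Pool.Agent.H623R2.VC.Build
import Pool.Agent.H565R2.FO2.USec

set_option autoImplicit false

/-!
The dichotomy for Borel classes of structures that are closed under mixtures of the components of
the structures in the fibres of a Borel invariant.
-/

namespace Pool.Agent.H623R2.VC

open Set MeasureTheory

variable {L : FirstOrder.Language.{0, 0}}

/-- Codes of interpretations on the natural numbers. -/
abbrev Code (L : FirstOrder.Language.{0, 0}) : Type :=
  (Σ n, L.Relations n × (Fin n → ℕ)) → Bool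

/-- The interpretation with a given code. -/
def toI (c : Code L) : Interp L ℕ := fun n R t => c ⟨n, R, t⟩ = true

open Classical in
/-- The code of an interpretation. -/
noncomputable def ofI (I : Interp L ℕ) : Code L := fun p => decide (I p.1 p.2.1 p.2.2)

theorem toI_ofI (I : Interp L ℕ) : toI (ofI I) = I := by
  funext n R t
  simp [toI, ofI]

theorem ofI_toI (c : Code L) : ofI (toI c) = c := by
  funext p
  rw [Bool.eq_iff_iff]
  simp only [ofI, decide_eq_true_eq]
  exact Iff.rfl

/-- There is a perfect set of pairwise non-isomorphic members. -/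
def Perf (K : Set (Code L)) : Prop :=
  ∃ f : (ℕ → Bool) → Code L, Continuous f ∧ (∀ x, f x ∈ K) ∧
    ∀ x x', GIso (toI (f x)) (toI (f x')) → x = x'

/-- There are only countably many isomorphism classes. -/
def Ctbl (K : Set (Code L)) : Prop :=
  ∃ g : ℕ → Code L, ∀ c ∈ K, ∃ n, GIso (toI c) (toI (g n))

theorem perf_of_uncountable {K : Set (Code L)} [∀ n, Countable (L.Relations n)]
    (hK : MeasurableSet K) {ι Z : Type} [Countable ι] [TopologicalSpace Z] [T2Space Z]
    [SecondCountableTopology Z] [MeasurableSpace Z] [BorelSpace Z]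
    (J : ι → Code L → Z) (hJ : ∀ i, Measurable (J i))
    (hE : ∀ c ∈ K, ∀ c' ∈ K, GIso (toI c) (toI c') → ∀ i, ∃ j, J i c = J j c')
    (hunc : ¬ {z | ∃ i, ∃ c ∈ K, J i c = z}.Countable) : Perf K := by
  have : StandardBorelSpace K := hK.standardBorel
  obtain ⟨h, h1, h2⟩ := Pool.Agent.H565R2.FO2.perfect_of_uncountable (Y := K) (X := Code L)
    (Subtype.val) measurable_subtype_coe (fun i (y : K) => J i y.1)
    (fun i => (hJ i).comp measurable_subtype_coe) (fun y y' => GIso (toI y.1) (toI y'.1))
    (fun y y' h i => hE y.1 y.2 y'.1 y'.2 h i) (by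
      intro hc
      apply hunc
      refine hc.mono ?_
      rintro z ⟨i, c, hc, rfl⟩
      exact mem_iUnion.2 ⟨i, ⟨⟨c, hc⟩, rfl⟩⟩)
  refine ⟨fun x => (h x).1, h1, fun x => (h x).2, fun x x' h3 => ?_⟩
  by_contra hne
  exact h2 x x' hne h3

theorem equiv_of_enat {A B : Type} [Countable A] [Countable B]
    (h : ENat.card A = ENat.card B) : Nonempty (A ≃ B) := by
  by_cases hA : Finite A
  · have hB : Finite B := by
      rw [← ENat.card_lt_top, ← h, ENat.card_lt_top]
      exact hA
    have := Fintype.ofFinite A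
    have := Fintype.ofFinite B
    rw [ENat.card_eq_coe_fintype_card, ENat.card_eq_coe_fintype_card, Nat.cast_inj] at h
    exact ⟨Fintype.equivOfCardEq h⟩
  · have hB : ¬ Finite B := by
      rw [← ENat.card_lt_top, ← h, ENat.card_lt_top]
      exact hA
    rw [not_finite_iff_infinite] at hA hB
    exact nonempty_equiv_of_countable

theorem exists_reps {A B : Type} [Countable B] (F : A → B) :
    ∃ G : Set A, G.Countable ∧ ∀ a, ∃ a' ∈ G, F a' = F a := by
  classical
  refine ⟨range (fun b : range F => b.2.choose), countable_range _, fun a => ?_⟩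
  exact ⟨_, ⟨⟨F a, a, rfl⟩, rfl⟩, (⟨a, rfl⟩ : ∃ y, F y = F a).choose_spec⟩

theorem dich [∀ n, Countable (L.Relations n)] {K : Set (Code L)} (hK : MeasurableSet K)
    (x : Code L → (ℕ → Bool)) (hxm : Measurable x)
    (hx : ∀ c ∈ K, ∀ c' ∈ K, GIso (toI c) (toI c') → x c = x c')
    (hnull : ∀ c ∈ K, ∀ c' ∈ K, x c = x c' → NullEq (toI c) (toI c'))
    (hcl : ∀ M : ℕ → Code L, (∀ i, M i ∈ K) → (∀ i, x (M i) = x (M 0)) → ∀ N : Code L,
      (∀ a, ∃ b, CEq (toI (M 0)) a (toI N) b) → (∀ a, ∃ i b, CEq (toI N) a (toI (M i)) b) →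
        N ∈ K) : Ctbl K ∨ Perf K := by
  classical
  by_cases hc : (x '' K).Countable
  swap
  · right
    refine perf_of_uncountable hK (ι := Unit) (fun _ => x) (fun _ => hxm)
      (fun c hc c' hc' h _ => ⟨(), hx c hc c' hc' h⟩) (fun h => hc (h.mono ?_))
    rintro _ ⟨c, hc, rfl⟩
    exact ⟨(), c, hc, rfl⟩
  -- component types in the fibres
  let PT : (ℕ → Bool) → Type := fun ξ => {p : Code L × ℕ // p.1 ∈ K ∧ x p.1 = ξ}
  let St : ∀ ξ, Setoid (PT ξ) := fun ξ =>
    ⟨fun p q => CEq (toI p.1.1) p.1.2 (toI q.1.1) q.1.2, fun p => CEq.refl _ _, CEq.symm,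
      CEq.trans⟩
  by_cases hfin : ∀ ξ, Finite (Quotient (St ξ))
  · left
    -- countably many in each fibre
    have key : ∀ ξ, ∃ G : Set (Code L), G.Countable ∧ ∀ c ∈ K, x c = ξ →
        ∃ c' ∈ G, GIso (toI c) (toI c') := by
      intro ξ
      have := hfin ξ
      let τ : ∀ c : {c : Code L // c ∈ K ∧ x c = ξ}, Comp (toI c.1) → Quotient (St ξ) :=
        fun c q => Quotient.mk (St ξ) ⟨(c.1, q.out), c.2⟩
      let μ : {c : Code L // c ∈ K ∧ x c = ξ} → (Quotient (St ξ) → ℕ∞) := fun c q =>
        ENat.card {κ : Comp (toI c.1) // τ c κ = q}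
      obtain ⟨G, hG, hG2⟩ := exists_reps μ
      refine ⟨Subtype.val '' G, hG.image _, fun c hc hxc => ?_⟩
      obtain ⟨c', hc', h⟩ := hG2 ⟨c, hc, hxc⟩
      refine ⟨c'.1, ⟨c', hc', rfl⟩, ?_⟩
      let c0 : {c : Code L // c ∈ K ∧ x c = ξ} := ⟨c, hc, hxc⟩
      have h1 : Countable (Comp (toI c)) := inferInstance
      have h2 : Countable (Comp (toI c'.1)) := inferInstance
      have h3 : ∀ q, Nonempty ({κ : Comp (toI c0.1) // τ c0 κ = q} ≃
          {κ : Comp (toI c'.1) // τ c' κ = q}) := by
        intro q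
        exact equiv_of_enat (congrFun h q).symm
      let e : Comp (toI c0.1) ≃ Comp (toI c'.1) :=
        ((Equiv.sigmaFiberEquiv (τ c0)).symm.trans
          (Equiv.sigmaCongrRight fun q => (h3 q).some)).trans (Equiv.sigmaFiberEquiv (τ c'))
      have he : ∀ κ, τ c' (e κ) = τ c0 κ := by
        intro κ
        exact ((h3 (τ c0 κ)).some ⟨κ, rfl⟩).2
      refine glue e fun κ => ?_
      exact (Quotient.exact (he κ)).symm
    choose G hG hG2 using key
    have hc2 : (⋃ ξ ∈ x '' K, G ξ).Countable := hc.biUnion fun ξ _ => hG ξ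
    by_cases hKe : K.Nonempty
    · obtain ⟨c0, hc0⟩ := hKe
      obtain ⟨c1, hc1, _⟩ := hG2 _ c0 hc0 rfl
      obtain ⟨g, hg⟩ := hc2.exists_eq_range
        ⟨c1, mem_biUnion (mem_image_of_mem x hc0) hc1⟩
      refine ⟨g, fun c hcK => ?_⟩
      obtain ⟨c', hc', h⟩ := hG2 _ c hcK rfl
      have : c' ∈ ⋃ ξ ∈ x '' K, G ξ := mem_biUnion (mem_image_of_mem x hcK) hc'
      rw [hg] at this
      obtain ⟨n, rfl⟩ := this
      exact ⟨n, h⟩
    · refine ⟨fun _ => fun _ => false, fun c hcK => absurd ⟨c, hcK⟩ hKe⟩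
  · right
    push Not at hfin
    obtain ⟨ξ, hinf⟩ := hfin
    let p : ℕ → PT ξ := fun i => (Infinite.natEmbedding (Quotient (St ξ)) i).out
    have hp : ∀ i i', CEq (toI (p i).1.1) (p i).1.2 (toI (p i').1.1) (p i').1.2 → i = i' := by
      intro i i' h
      apply (Infinite.natEmbedding (Quotient (St ξ))).injective
      rw [← Quotient.out_eq (Infinite.natEmbedding (Quotient (St ξ)) i),
        ← Quotient.out_eq (Infinite.natEmbedding (Quotient (St ξ)) i')]
      exact Quotient.sound h
    let D : ℕ ⊕ ℕ → Interp L ℕ := Sum.elim (fun i => toI (p i).1.1) (fun _ => toI (p 0).1.1)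
    let b : ℕ ⊕ ℕ → ℕ := Sum.elim (fun i => (p i).1.2) (fun j => j)
    let J : Set ℕ := {j | ∀ i, ¬ CEq (toI (p 0).1.1) j (toI (p i).1.1) (p i).1.2}
    have hn : ∀ i i', NullEq (toI (p i).1.1) (toI (p i').1.1) := fun i i' =>
      hnull _ (p i).2.1 _ (p i').2.1 ((p i).2.2.trans (p i').2.2.symm)
    obtain ⟨N, h1, h2, h3, h4, h5⟩ := build D b J (by
        rintro (i | j) (i' | j')
        · exact hn i i'
        · exact hn i 0
        · exact hn 0 i'
        · exact hn 0 0) hp (fun i j hj => hj i)
    refine ⟨fun S => ofI (N S), ?_, fun S => ?_, fun S S' h => ?_⟩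
    · refine continuous_pi fun q => ?_
      obtain ⟨n, R, t⟩ := q
      have h6 := h1 n R t
      have h7 : Continuous fun S : ℕ → Bool => decide (N S n R t) := by
        rw [continuous_discrete_rng]
        intro β
        cases β with
        | true =>
          have : (fun S : ℕ → Bool => decide (N S n R t)) ⁻¹' {true} = {S | N S n R t} := by
            ext S; simp
          rw [this]; exact h6.isOpen
        | false =>
          have : (fun S : ℕ → Bool => decide (N S n R t)) ⁻¹' {false} = {S | N S n R t}ᶜ := by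
            ext S; simp
          rw [this]; exact h6.compl.isOpen
      refine h7.congr fun S => ?_
      simp only [ofI]
    · let M : ℕ → Code L := fun i => Nat.casesOn i (p 0).1.1 (fun i => (p i).1.1)
      refine hcl M ?_ ?_ _ ?_ ?_
      · intro i
        cases i with
        | zero => exact (p 0).2.1
        | succ i => exact (p i).2.1
      · intro i
        cases i with
        | zero => rfl
        | succ i => exact (p i).2.2.trans (p 0).2.2.symm
      · intro a
        rw [toI_ofI]
        by_cases ha : a ∈ J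
        · exact h4 S a ha
        · simp only [J, mem_ofPred_eq, not_forall, not_not] at ha
          obtain ⟨i, hi⟩ := ha
          obtain ⟨m, hm⟩ := h3 S i
          exact ⟨m, hi.trans hm⟩
      · intro a
        rw [toI_ofI]
        rcases h2 S a with ⟨i, hi⟩ | ⟨j, _, hj⟩
        · exact ⟨i + 1, _, hi⟩
        · exact ⟨0, _, hj⟩
    · simp only [toI_ofI] at h
      exact h5 S S' h

end Pool.Agent.H623R2.VC
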