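import Pool.Agent.H623R2.VC.Quant

set_option autoImplicit false

/-!
The dichotomy for the component-guarded negation fragment and for classes given by the Borel
invariants of the components.
-/

namespace Pool.Agent.H623R2.VC

open Set MeasureTheory

variable {L : FirstOrder.Language.{0, 0}}

theorem loc_eq (T : Set (Interp L ℕ → Prop)) (i j : ℕ) :
    Loc T {i, j} (fun _ v => v i = v j) := by
  refine ⟨?_, ?_, fun v => MeasurableSet.const _⟩
  · intro I v h
    have key : ∀ k ∈ ({i, j} : Finset ℕ), v k = v j := by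
      intro k hk
      rw [Finset.mem_insert, Finset.mem_singleton] at hk
      rcases hk with rfl | rfl
      · exact h
      · rfl
    intro k hk k' hk'
    rw [key k hk, key k' hk']
    exact Conn.refl _ _
  · rintro I v J w _ ⟨_, g, hg⟩ h
    have h1 := (hg i (by simp)).2
    have h2 := (hg j (by simp)).2
    change w i = w j
    rw [← h1, ← h2]
    exact congrArg g h

theorem loc_rel (T : Set (Interp L ℕ → Prop)) {n : ℕ} (R : L.Relations (n + 1))
    (t : Fin (n + 1) → ℕ) :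
    Loc T (Finset.univ.image t) (fun I v => I (n + 1) R (fun k => v (t k))) := by
  refine ⟨?_, ?_, fun v => measurableSet_rel _ _ _⟩
  · intro I v h i hi j hj
    obtain ⟨k, _, rfl⟩ := Finset.mem_image.1 hi
    obtain ⟨k', _, rfl⟩ := Finset.mem_image.1 hj
    exact conn_tuple h k k'
  · rintro I v J w _ ⟨hc, g, hg⟩ h
    have hm : ∀ k, t k ∈ Finset.univ.image t := fun k =>
      Finset.mem_image.2 ⟨k, Finset.mem_univ k, rfl⟩
    have h1 := ((hg (t 0) (hm 0)).1.rel (n + 1) R (fun k => v (t k))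
      (fun k => hc _ (hm 0) _ (hm k))).1 h
    have h2 : (fun k => g (v (t k))) = fun k => w (t k) := by
      funext k
      exact (hg (t k) (hm k)).2
    rw [h2] at h1
    exact h1

/-- The sentences given by the relations of arity `0`. -/
def null0 (L : FirstOrder.Language.{0, 0}) : Set (Interp L ℕ → Prop) :=
  range fun R : L.Relations 0 => fun I => I 0 R Fin.elim0

theorem good_null [∀ n, Countable (L.Relations n)] (K : Set (Code L)) : Good K (null0 L) := by
  refine ⟨countable_range _, ?_, ?_⟩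
  · rintro _ ⟨R, rfl⟩
    exact measurableSet_rel _ _ _
  · rintro M N hM _ ⟨R, rfl⟩
    obtain ⟨b, hb⟩ := hM.sub 0
    exact hb.nullEq R _ _

theorem loc_null (R : L.Relations 0) (t : Fin 0 → ℕ) :
    Loc (null0 L) ∅ (fun I v => I 0 R (fun k => v (t k))) := by
  refine ⟨fun _ _ _ i hi => absurd hi (Finset.notMem_empty i), ?_, fun v => measurableSet_rel _ _ _⟩
  intro I v J w hA _ h
  have e : ∀ s : Fin 0 → ℕ, s = Fin.elim0 := fun s => funext fun k => k.elim0
  have h1 := hA _ ⟨R, rfl⟩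
  simp only [e (fun k => v (t k))] at h
  simp only [e (fun k => w (t k))]
  exact h1.1 h

theorem nf_exists [∀ n, Countable (L.Relations n)] {K : Set (Code L)} (hK : MeasurableSet K)
    (hP : ¬ Perf K) (φ : Fm L) : Fm.Guarded φ → ∀ F : Finset ℕ, Fm.fv φ ⊆ ↑F →
      ∃ T, Good K T ∧ Nf K T F (fun I v => Fm.Sat I φ v) := by
  classical
  induction φ with
  | eq i j =>
    intro _ F hF
    refine ⟨∅, Good.empty K, Nf.single (A := {i, j}) (fun k hk => ?_) (loc_eq ∅ i j)⟩
    apply hF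
    simpa [Fm.fv] using hk
  | @rel n R t =>
    intro _ F hF
    cases n with
    | zero => exact ⟨_, good_null K, Nf.single (Finset.empty_subset _) (loc_null R t)⟩
    | succ n =>
      refine ⟨∅, Good.empty K, Nf.single (fun k hk => ?_) (loc_rel ∅ R t)⟩
      apply hF
      obtain ⟨l, _, rfl⟩ := Finset.mem_image.1 hk
      exact ⟨l, rfl⟩
  | all f ih =>
    intro hg F hF
    have h1 : ∀ k, ∃ T, Good K T ∧ Nf K T F (fun I v => Fm.Sat I (f k) v) := fun k =>
      ih k (hg k) F (fun i hi => hF (mem_iUnion.2 ⟨k, hi⟩))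
    choose T hT hN using h1
    refine ⟨⋃ k, T k, Good.iUnion hT, ?_⟩
    exact Nf.all hK hP (Good.iUnion hT) (fun k => (hN k).mono (subset_iUnion T k))
  | any f ih =>
    intro hg F hF
    have h1 : ∀ k, ∃ T, Good K T ∧ Nf K T F (fun I v => Fm.Sat I (f k) v) := fun k =>
      ih k (hg k) F (fun i hi => hF (mem_iUnion.2 ⟨k, hi⟩))
    choose T hT hN using h1
    exact ⟨⋃ k, T k, Good.iUnion hT, Nf.any (fun k => (hN k).mono (subset_iUnion T k))⟩
  | ex i φ ih =>
    intro hg F hF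
    obtain ⟨T, hT, hN⟩ := ih hg (insert i F) (fun j hj => by
      by_cases h : j = i
      · subst h; simp
      · exact Finset.mem_coe.2 (Finset.mem_insert_of_mem (hF ⟨hj, h⟩)))
    exact Nf.ex hT hN
  | neg s φ ih =>
    intro hg F hF
    obtain ⟨T, hT, hN⟩ := ih hg.1 s hg.2
    exact ⟨T, hT, Nf.neg (fun i hi => hF (Or.inl hi)) hN⟩

/-- Equality of the sets of invariants. -/
theorem main [∀ n, Countable (L.Relations n)] (r : Code L → ℕ → (ℕ → Bool))
    (hrm : ∀ a, Measurable fun c => r c a)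
    (hri : ∀ c c' a g, CIso (toI c) (toI c') g a → r c a = r c' (g a))
    (K0 : Set (Code L)) (hK0 : MeasurableSet K0)
    (hcl : ∀ c ∈ K0, ∀ c', range (r c) = range (r c') → c' ∈ K0)
    (A : Set (Fm L)) (hA : A.Countable) (hAs : ∀ φ ∈ A, Fm.Guarded φ ∧ Fm.fv φ = ∅)
    (hm : MeasurableSet {c : Code L | ∀ φ ∈ A, ∀ a : ℕ → ℕ, Fm.Sat (toI c) φ a}) :
    Ctbl (K0 ∩ {c : Code L | ∀ φ ∈ A, ∀ a : ℕ → ℕ, Fm.Sat (toI c) φ a}) ∨
      Perf (K0 ∩ {c : Code L | ∀ φ ∈ A, ∀ a : ℕ → ℕ, Fm.Sat (toI c) φ a}) := by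
  classical
  set K := K0 ∩ {c : Code L | ∀ φ ∈ A, ∀ a : ℕ → ℕ, Fm.Sat (toI c) φ a} with hKd
  have hK : MeasurableSet K := hK0.inter hm
  by_cases hP : Perf K
  · exact Or.inr hP
  -- the invariants
  let V : Set (ℕ → Bool) := {ρ | ∃ a, ∃ c ∈ K, r c a = ρ}
  have hV : V.Countable := by
    by_contra hc
    refine hP (perf_of_uncountable hK (fun a c => r c a) hrm ?_ hc)
    rintro c _ c' _ ⟨g, hg⟩ i
    exact ⟨g i, hri c c' i g (GIso.ciso g hg i)⟩
  let T0 : Set (Interp L ℕ → Prop) := (fun ρ => fun I => ∃ a, r (ofI I) a = ρ) '' V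
  have hT0 : Good K T0 := by
    refine ⟨hV.image _, ?_, ?_⟩
    · rintro _ ⟨ρ, _, rfl⟩
      have : {c : Code L | ∃ a, r (ofI (toI c)) a = ρ} = ⋃ a, {c : Code L | r c a = ρ} := by
        ext c
        simp [ofI_toI]
      rw [this]
      exact MeasurableSet.iUnion fun a => hrm a (measurableSet_singleton ρ)
    · rintro M N hM _ ⟨ρ, hρ, rfl⟩
      constructor
      · rintro ⟨a, ha⟩
        obtain ⟨b, g, hg, _⟩ := hM.sub a
        refine ⟨g a, ?_⟩
        rw [ofI_toI] at ha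
        rw [← toI_ofI N] at hg
        rw [← ha]
        exact (hri _ _ _ _ hg).symm
      · rintro ⟨a, ha⟩
        obtain ⟨i, b, g, hg, _⟩ := hM.cov a
        rw [← toI_ofI N] at hg
        refine (hM.ag i _ ⟨ρ, hρ, rfl⟩).2 ⟨g a, ?_⟩
        rw [ofI_toI, ← ha]
        exact (hri _ _ _ _ hg).symm
  -- the sentences
  have hN : ∀ φ : A, ∃ T, Good K T ∧ Nf K T ∅ (fun I v => Fm.Sat I φ.1 v) := fun φ =>
    nf_exists hK hP φ.1 (hAs φ.1 φ.2).1 ∅ (by rw [(hAs φ.1 φ.2).2]; exact empty_subset _)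
  choose TA hTA hNA using hN
  have hAc : Countable A := hA.to_subtype
  let T1 : Set (Interp L ℕ → Prop) := {fun _ => True}
  have hT1 : Good K T1 := by
    refine ⟨countable_singleton _, ?_, ?_⟩
    · rintro _ rfl
      exact MeasurableSet.const _
    · rintro M N hM _ rfl
      exact Iff.rfl
  let T : Set (Interp L ℕ → Prop) := T1 ∪ (T0 ∪ (null0 L ∪ ⋃ φ, TA φ))
  have hT : Good K T := hT1.union (hT0.union ((good_null K).union (Good.iUnion hTA)))
  have hTT0 : T0 ⊆ T := fun s hs => Or.inr (Or.inl hs)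
  have hTn : null0 L ⊆ T := fun s hs => Or.inr (Or.inr (Or.inl hs))
  have hTA' : ∀ φ, TA φ ⊆ T := fun φ s hs => Or.inr (Or.inr (Or.inr (mem_iUnion.2 ⟨φ, hs⟩)))
  obtain ⟨e, he⟩ := hT.ctbl.exists_eq_range ⟨fun _ => True, Or.inl rfl⟩
  have hem : ∀ n, e n ∈ T := fun n => by rw [he]; exact ⟨n, rfl⟩
  let x : Code L → (ℕ → Bool) := fun c n => decide (e n (toI c))
  have hxA : ∀ c c', x c = x c' → Ag T (toI c) (toI c') := by
    intro c c' h s hs
    rw [he] at hs
    obtain ⟨n, rfl⟩ := hs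
    exact decide_eq_decide.1 (congrFun h n)
  have hxA' : ∀ c c', Ag T (toI c) (toI c') → x c = x c' := by
    intro c c' h
    funext n
    exact decide_eq_decide.2 (h _ (hem n))
  have hxm : Measurable x := by
    refine measurable_pi_lambda _ fun n => measurable_to_bool ?_
    have : (fun c => x c n) ⁻¹' {true} = {c : Code L | e n (toI c)} := by
      ext c
      simp [x]
    rw [this]
    exact hT.meas _ (hem n)
  refine dich hK x hxm ?_ ?_ ?_
  · intro c hc c' _ h
    exact hxA' _ _ (hT.iso hc h)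
  · intro c _ c' _ h R t t'
    have h1 := hxA _ _ h _ (hTn ⟨R, rfl⟩)
    have e : ∀ s : Fin 0 → ℕ, s = Fin.elim0 := fun s => funext fun k => k.elim0
    rw [e t, e t']
    exact h1
  · intro M hM hx N hsub hcov
    have hMix : Mix K T M (toI N) := ⟨hM, fun i => hxA _ _ (hx i).symm, hsub, hcov⟩
    have hAg := hT.agr _ _ hMix
    refine ⟨hcl (M 0) (hM 0).1 N ?_, fun φ hφ a => ?_⟩
    · apply Subset.antisymm
      · rintro _ ⟨a, rfl⟩
        obtain ⟨b, g, hg, _⟩ := hsub a
        exact ⟨g a, (hri _ _ _ _ hg).symm⟩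
      · rintro _ ⟨a, rfl⟩
        obtain ⟨i, b, g, hg, _⟩ := hcov a
        have h1 := hri _ _ _ _ hg
        have h2 : r N a ∈ V := ⟨g a, M i, hM i, h1.symm⟩
        obtain ⟨a', ha'⟩ := (hMix.ag i _ (hTT0 ⟨_, h2, rfl⟩)).2 ⟨g a, by rw [ofI_toI]; exact h1.symm⟩
        rw [ofI_toI] at ha'
        exact ⟨a', ha'⟩
    · obtain ⟨D, _, h2, h3⟩ := hNA ⟨φ, hφ⟩
      have hself := Mix.self (TA ⟨φ, hφ⟩) (hM 0)
      obtain ⟨l, hl, h4⟩ := (h3 _ _ hself a).1 ((hM 0).2 φ hφ a)
      refine (h3 M (toI N) (hMix.mono (hTA' _)) a).2 ⟨l, hl, fun p hp => ?_⟩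
      obtain ⟨h5, h6⟩ := h2 l hl p hp
      refine h5.tr _ a _ a (hAg.mono (hTA' _)) ?_ (h4 p hp)
      rw [Finset.subset_empty.1 h6]
      exact GI.empty _ _ _ _

end Pool.Agent.H623R2.VC
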