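import Pool.Agent.H623R2.VC.Comp

set_option autoImplicit false

/-!
The component-guarded negation fragment of `L_{omega_1 omega}`.
-/

namespace Pool.Agent.H623R2.VC

open Set

/-- Formulas of `L_{omega_1 omega}` (variables are the natural numbers) in which negation only
occurs together with a guard: `neg s φ` says that the values of the variables in `s` lie in one
connected component and `φ` fails. -/
inductive Fm (L : FirstOrder.Language.{0, 0}) : Type
  | eq (i j : ℕ) : Fm L
  | rel {n : ℕ} (R : L.Relations n) (v : Fin n → ℕ) : Fm L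
  | all (f : ℕ → Fm L) : Fm L
  | any (f : ℕ → Fm L) : Fm L
  | ex (i : ℕ) (φ : Fm L) : Fm L
  | neg (s : Finset ℕ) (φ : Fm L) : Fm L

variable {L : FirstOrder.Language.{0, 0}} {M : Type}

namespace Fm

/-- Free variables. -/
def fv : Fm L → Set ℕ
  | eq i j => {i, j}
  | rel _ v => range v
  | all f => ⋃ k, fv (f k)
  | any f => ⋃ k, fv (f k)
  | ex i φ => fv φ \ {i}
  | neg s φ => ↑s ∪ fv φ

/-- The guards of all negations contain the free variables of the negated formulas. -/
def Guarded : Fm L → Prop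
  | eq _ _ => True
  | rel _ _ => True
  | all f => ∀ k, Guarded (f k)
  | any f => ∀ k, Guarded (f k)
  | ex _ φ => Guarded φ
  | neg s φ => Guarded φ ∧ fv φ ⊆ ↑s

/-- Satisfaction of a formula under an assignment. -/
def Sat (I : Interp L M) : Fm L → (ℕ → M) → Prop
  | eq i j, a => a i = a j
  | rel R v, a => I _ R (fun k => a (v k))
  | all f, a => ∀ k, Sat I (f k) a
  | any f, a => ∃ k, Sat I (f k) a
  | ex i φ, a => ∃ x : M, Sat I φ (Function.update a i x)
  | neg s φ, a => (∀ i ∈ s, ∀ j ∈ s, Conn I (a i) (a j)) ∧ ¬ Sat I φ a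

theorem sat_congr (I : Interp L M) (φ : Fm L) : ∀ a a' : ℕ → M, (∀ i ∈ fv φ, a i = a' i) →
    Sat I φ a → Sat I φ a' := by
  induction φ with
  | eq i j =>
    intro a a' h h1
    have h2 := h i (by simp [fv]); have h3 := h j (by simp [fv])
    simp only [Sat] at h1 ⊢
    rw [← h2, ← h3]; exact h1
  | rel R v =>
    intro a a' h h1
    simp only [Sat] at h1 ⊢
    have : (fun k => a' (v k)) = fun k => a (v k) := by
      funext k; exact (h _ ⟨k, rfl⟩).symm
    rw [this]; exact h1
  | all f ih =>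
    intro a a' h h1 k
    exact ih k a a' (fun i hi => h i (mem_iUnion.2 ⟨k, hi⟩)) (h1 k)
  | any f ih =>
    rintro a a' h ⟨k, h1⟩
    exact ⟨k, ih k a a' (fun i hi => h i (mem_iUnion.2 ⟨k, hi⟩)) h1⟩
  | ex i φ ih =>
    rintro a a' h ⟨x, h1⟩
    refine ⟨x, ih _ _ (fun j hj => ?_) h1⟩
    by_cases hji : j = i
    · subst hji; simp
    · rw [Function.update_of_ne hji, Function.update_of_ne hji]
      exact h j ⟨hj, hji⟩
  | neg s φ ih =>
    rintro a a' h ⟨h1, h2⟩
    refine ⟨fun i hi j hj => ?_, fun h3 => h2 (ih a' a (fun i hi => (h i (Or.inr hi)).symm) h3)⟩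
    rw [← h i (Or.inl hi), ← h j (Or.inl hj)]
    exact h1 i hi j hj

end Fm

end Pool.Agent.H623R2.VC
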