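import Pool.Agent.H623R2.VC.Dich
import Pool.Agent.H623R2.VC.Frm

set_option autoImplicit false

/-!
Normal forms of component-guarded formulas over the mixtures of the members of a class without
perfect set of pairwise non-isomorphic members.
-/

namespace Pool.Agent.H623R2.VC

open Set MeasureTheory

variable {L : FirstOrder.Language.{0, 0}}

/-! ### Measurability of connectedness -/

theorem measurableSet_rel (n : ℕ) (R : L.Relations n) (t : Fin n → ℕ) :
    MeasurableSet {c : Code L | toI c n R t} := by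
  have h := measurable_pi_apply (X := fun _ : (Σ n, L.Relations n × (Fin n → ℕ)) => Bool)
    (⟨n, R, t⟩ : Σ n, L.Relations n × (Fin n → ℕ))
  exact h (measurableSet_singleton true)

theorem measurableSet_adj [∀ n, Countable (L.Relations n)] (x y : ℕ) :
    MeasurableSet {c : Code L | Adj (toI c) x y} := by
  have : {c : Code L | Adj (toI c) x y} = ⋃ n, ⋃ R : L.Relations n, ⋃ t : Fin n → ℕ,
      {c : Code L | toI c n R t} ∩ {_c : Code L | x ∈ range t ∧ y ∈ range t} := by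
    ext c; simp [Adj]
  rw [this]
  refine MeasurableSet.iUnion fun n => MeasurableSet.iUnion fun R =>
    MeasurableSet.iUnion fun t => ?_
  exact (measurableSet_rel n R t).inter (MeasurableSet.const _)

/-- Paths of a given length. -/
def Pth (I : Interp L ℕ) (x : ℕ) : ℕ → ℕ → Prop
  | 0, y => x = y
  | n + 1, y => ∃ z, Pth I x n z ∧ Adj I z y

theorem conn_iff_pth (I : Interp L ℕ) (x y : ℕ) : Conn I x y ↔ ∃ n, Pth I x n y := by
  constructor
  · intro h
    induction h with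
    | refl => exact ⟨0, rfl⟩
    | tail _ h ih =>
      obtain ⟨n, hn⟩ := ih
      exact ⟨n + 1, _, hn, h⟩
  · rintro ⟨n, hn⟩
    induction n generalizing y with
    | zero =>
      have : x = y := hn
      subst this
      exact Conn.refl I x
    | succ n ih =>
      obtain ⟨z, hz, h⟩ := hn
      exact (ih z hz).trans (Relation.ReflTransGen.single h)

theorem measurableSet_conn [∀ n, Countable (L.Relations n)] (x y : ℕ) :
    MeasurableSet {c : Code L | Conn (toI c) x y} := by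
  have h1 : ∀ n y, MeasurableSet {c : Code L | Pth (toI c) x n y} := by
    intro n
    induction n with
    | zero => intro y; exact MeasurableSet.const _
    | succ n ih =>
      intro y
      have : {c : Code L | Pth (toI c) x (n + 1) y} =
          ⋃ z, {c : Code L | Pth (toI c) x n z} ∩ {c : Code L | Adj (toI c) z y} := by
        ext c; simp [Pth]
      rw [this]
      exact MeasurableSet.iUnion fun z => (ih z).inter (measurableSet_adj z y)
  have : {c : Code L | Conn (toI c) x y} = ⋃ n, {c : Code L | Pth (toI c) x n y} := by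
    ext c; simp [conn_iff_pth]
  rw [this]
  exact MeasurableSet.iUnion fun n => h1 n y

/-! ### Mixtures and local queries -/

/-- A query: a property of interpretations and assignments. -/
abbrev Query (L : FirstOrder.Language.{0, 0}) : Type := Interp L ℕ → (ℕ → ℕ) → Prop

/-- Agreement on a set of sentences. -/
def Ag (T : Set (Interp L ℕ → Prop)) (I J : Interp L ℕ) : Prop := ∀ s ∈ T, (s I ↔ s J)

theorem Ag.symm {T : Set (Interp L ℕ → Prop)} {I J : Interp L ℕ} (h : Ag T I J) : Ag T J I :=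
  fun s hs => (h s hs).symm

theorem Ag.trans {T : Set (Interp L ℕ → Prop)} {I J H : Interp L ℕ} (h : Ag T I J)
    (h' : Ag T J H) : Ag T I H := fun s hs => (h s hs).trans (h' s hs)

theorem Ag.mono {T T' : Set (Interp L ℕ → Prop)} (hT : T ⊆ T') {I J : Interp L ℕ}
    (h : Ag T' I J) : Ag T I J := fun s hs => h s (hT hs)

/-- `N` is a mixture of the members `M i` of `K`, which agree on `T`. -/
structure Mix (K : Set (Code L)) (T : Set (Interp L ℕ → Prop)) (M : ℕ → Code L)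
    (N : Interp L ℕ) : Prop where
  mem : ∀ i, M i ∈ K
  ag : ∀ i, Ag T (toI (M 0)) (toI (M i))
  sub : ∀ a, ∃ b, CEq (toI (M 0)) a N b
  cov : ∀ a, ∃ i b, CEq N a (toI (M i)) b

theorem Mix.mono {K : Set (Code L)} {T T' : Set (Interp L ℕ → Prop)} (hT : T ⊆ T')
    {M : ℕ → Code L} {N : Interp L ℕ} (h : Mix K T' M N) : Mix K T M N :=
  ⟨h.mem, fun i => (h.ag i).mono hT, h.sub, h.cov⟩

theorem Mix.self {K : Set (Code L)} (T : Set (Interp L ℕ → Prop)) {c : Code L} (hc : c ∈ K) :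
    Mix K T (fun _ => c) (toI c) :=
  ⟨fun _ => hc, fun _ _ _ => Iff.rfl, fun a => ⟨a, CEq.refl _ _⟩, fun a => ⟨0, a, CEq.refl _ _⟩⟩

theorem Mix.iso {K : Set (Code L)} (T : Set (Interp L ℕ → Prop)) {c : Code L} (hc : c ∈ K)
    {N : Interp L ℕ} (h : GIso (toI c) N) : Mix K T (fun _ => c) N := by
  obtain ⟨g, hg⟩ := h
  refine ⟨fun _ => hc, fun _ _ _ => Iff.rfl, fun a => ⟨g a, CEq.of_ciso (GIso.ciso g hg a)⟩,
    fun a => ⟨0, g.symm a, ?_⟩⟩
  have := (CEq.of_ciso (GIso.ciso g hg (g.symm a))).symm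
  rwa [Equiv.apply_symm_apply] at this

/-- A countable set of measurable sentences on which mixtures agree with their ingredients. -/
structure Good (K : Set (Code L)) (T : Set (Interp L ℕ → Prop)) : Prop where
  ctbl : T.Countable
  meas : ∀ s ∈ T, MeasurableSet {c : Code L | s (toI c)}
  agr : ∀ M N, Mix K T M N → Ag T (toI (M 0)) N

theorem Good.iUnion {K : Set (Code L)} {ι : Type} [Countable ι] {T : ι → Set (Interp L ℕ → Prop)}
    (h : ∀ i, Good K (T i)) : Good K (⋃ i, T i) := by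
  refine ⟨countable_iUnion fun i => (h i).ctbl, ?_, ?_⟩
  · intro s hs
    obtain ⟨i, hi⟩ := mem_iUnion.1 hs
    exact (h i).meas s hi
  · intro M N hM s hs
    obtain ⟨i, hi⟩ := mem_iUnion.1 hs
    exact (h i).agr M N (hM.mono (subset_iUnion T i)) s hi

theorem Good.union {K : Set (Code L)} {T T' : Set (Interp L ℕ → Prop)}
    (h : Good K T) (h' : Good K T') : Good K (T ∪ T') := by
  refine ⟨h.ctbl.union h'.ctbl, ?_, ?_⟩
  · rintro s (hs | hs)
    · exact h.meas s hs
    · exact h'.meas s hs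
  · rintro M N hM s (hs | hs)
    · exact h.agr M N (hM.mono subset_union_left) s hs
    · exact h'.agr M N (hM.mono subset_union_right) s hs

theorem Good.empty (K : Set (Code L)) : Good K ∅ :=
  ⟨countable_empty, fun s hs => absurd hs (notMem_empty s),
    fun _ _ _ s hs => absurd hs (notMem_empty s)⟩

theorem Good.iso {K : Set (Code L)} {T : Set (Interp L ℕ → Prop)} (h : Good K T) {c : Code L}
    (hc : c ∈ K) {N : Interp L ℕ} (hi : GIso (toI c) N) : Ag T (toI c) N :=
  h.agr _ _ (Mix.iso T hc hi)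

/-- The values of the variables in `A` lie in one component, and some isomorphism of components
maps them to the values of the other assignment. -/
def GI (A : Finset ℕ) (I : Interp L ℕ) (v : ℕ → ℕ) (J : Interp L ℕ) (w : ℕ → ℕ) : Prop :=
  (∀ i ∈ A, ∀ j ∈ A, Conn I (v i) (v j)) ∧ ∃ g : ℕ → ℕ, ∀ i ∈ A, CIso I J g (v i) ∧ g (v i) = w i

theorem GI.mono {A B : Finset ℕ} (hB : B ⊆ A) {I J : Interp L ℕ} {v w : ℕ → ℕ}
    (h : GI A I v J w) : GI B I v J w := by
  obtain ⟨h1, g, h2⟩ := h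
  exact ⟨fun i hi j hj => h1 i (hB hi) j (hB hj), g, fun i hi => h2 i (hB hi)⟩

theorem GI.symm {A : Finset ℕ} {I J : Interp L ℕ} {v w : ℕ → ℕ} (h : GI A I v J w) :
    GI A J w I v := by
  obtain ⟨h1, g, h2⟩ := h
  rcases A.eq_empty_or_nonempty with rfl | ⟨i0, hi0⟩
  · exact ⟨fun i hi => absurd hi (Finset.notMem_empty i), fun n => n,
      fun i hi => absurd hi (Finset.notMem_empty i)⟩
  · obtain ⟨h3, h4⟩ := h2 i0 hi0
    obtain ⟨g', h5, h6⟩ := h3.inverse
    have h7 : ∀ i ∈ A, Conn J (g (v i0)) (w i) := by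
      intro i hi
      rw [← (h2 i hi).2]
      exact h3.map _ (h1 i0 hi0 i hi)
    refine ⟨fun i hi j hj => (h7 i hi).symm.trans (h7 j hj), g', fun i hi => ⟨?_, ?_⟩⟩
    · exact h5.move (h7 i hi)
    · rw [← (h2 i hi).2]
      exact h6 _ (h1 i0 hi0 i hi)

theorem GI.empty (I : Interp L ℕ) (v : ℕ → ℕ) (J : Interp L ℕ) (w : ℕ → ℕ) : GI ∅ I v J w :=
  ⟨fun i hi => absurd hi (Finset.notMem_empty i), fun n => n,
    fun i hi => absurd hi (Finset.notMem_empty i)⟩

/-- Local queries. -/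
structure Loc (T : Set (Interp L ℕ → Prop)) (A : Finset ℕ) (Θ : Query L) : Prop where
  conn : ∀ I v, Θ I v → ∀ i ∈ A, ∀ j ∈ A, Conn I (v i) (v j)
  tr : ∀ I v J w, Ag T I J → GI A I v J w → Θ I v → Θ J w
  meas : ∀ v, MeasurableSet {c : Code L | Θ (toI c) v}

theorem Loc.congr {T : Set (Interp L ℕ → Prop)} {A : Finset ℕ} {Θ : Query L} (h : Loc T A Θ)
    {I : Interp L ℕ} {v w : ℕ → ℕ} (hvw : ∀ i ∈ A, v i = w i) (hv : Θ I v) : Θ I w :=
  h.tr I v I w (fun _ _ => Iff.rfl) ⟨h.conn I v hv, fun n => n, fun i hi =>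
    ⟨CIso.id I (v i), hvw i hi⟩⟩ hv

theorem Loc.mono {T T' : Set (Interp L ℕ → Prop)} (hT : T ⊆ T') {A : Finset ℕ} {Θ : Query L}
    (h : Loc T A Θ) : Loc T' A Θ :=
  ⟨h.conn, fun I v J w hA hG => h.tr I v J w (hA.mono hT) hG, h.meas⟩

theorem Loc.iff {T : Set (Interp L ℕ → Prop)} {A : Finset ℕ} {Θ : Query L} (h : Loc T A Θ)
    {I J : Interp L ℕ} {v w : ℕ → ℕ} (hA : Ag T I J) (hG : GI A I v J w) : Θ I v ↔ Θ J w :=
  ⟨h.tr I v J w hA hG, h.tr J w I v hA.symm hG.symm⟩

/-- Normal forms. -/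
def Nf (K : Set (Code L)) (T : Set (Interp L ℕ → Prop)) (F : Finset ℕ) (Φ : Query L) : Prop :=
  ∃ D : Set (List (Finset ℕ × Query L)), D.Countable ∧
    (∀ l ∈ D, ∀ p ∈ l, Loc T p.1 p.2 ∧ p.1 ⊆ F) ∧
    ∀ M N, Mix K T M N → ∀ v, (Φ N v ↔ ∃ l ∈ D, ∀ p ∈ l, p.2 N v)

theorem Nf.mono {K : Set (Code L)} {T T' : Set (Interp L ℕ → Prop)} (hT : T ⊆ T') {F : Finset ℕ}
    {Φ : Query L} (h : Nf K T F Φ) : Nf K T' F Φ := by
  obtain ⟨D, h1, h2, h3⟩ := h
  exact ⟨D, h1, fun l hl p hp => ⟨(h2 l hl p hp).1.mono hT, (h2 l hl p hp).2⟩,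
    fun M N hM => h3 M N (hM.mono hT)⟩

theorem Nf.single {K : Set (Code L)} {T : Set (Interp L ℕ → Prop)} {A F : Finset ℕ} (hA : A ⊆ F)
    {Θ : Query L} (h : Loc T A Θ) : Nf K T F Θ := by
  refine ⟨{[(A, Θ)]}, countable_singleton _, ?_, ?_⟩
  · rintro l rfl p hp
    rw [List.mem_singleton] at hp
    subst hp
    exact ⟨h, hA⟩
  · intro M N _ v
    constructor
    · intro h1
      refine ⟨_, rfl, fun p hp => ?_⟩
      rw [List.mem_singleton] at hp
      subst hp
      exact h1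
    · rintro ⟨l, rfl, h1⟩
      exact h1 (A, Θ) (List.mem_singleton.2 rfl)

theorem Nf.any {K : Set (Code L)} {T : Set (Interp L ℕ → Prop)} {F : Finset ℕ}
    {Φ : ℕ → Query L} (h : ∀ k, Nf K T F (Φ k)) : Nf K T F (fun I v => ∃ k, Φ k I v) := by
  choose D h1 h2 h3 using h
  refine ⟨⋃ k, D k, countable_iUnion h1, ?_, ?_⟩
  · intro l hl
    obtain ⟨k, hk⟩ := mem_iUnion.1 hl
    exact h2 k l hk
  · intro M N hM v
    constructor
    · rintro ⟨k, hk⟩
      obtain ⟨l, hl, hl2⟩ := (h3 k M N hM v).1 hk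
      exact ⟨l, mem_iUnion.2 ⟨k, hl⟩, hl2⟩
    · rintro ⟨l, hl, hl2⟩
      obtain ⟨k, hk⟩ := mem_iUnion.1 hl
      exact ⟨k, (h3 k M N hM v).2 ⟨l, hk, hl2⟩⟩

theorem Nf.neg [∀ n, Countable (L.Relations n)] {K : Set (Code L)}
    {T : Set (Interp L ℕ → Prop)} {s F : Finset ℕ} (hs : s ⊆ F) {Φ : Query L} (h : Nf K T s Φ) :
    Nf K T F (fun I v => (∀ i ∈ s, ∀ j ∈ s, Conn I (v i) (v j)) ∧ ¬ Φ I v) := by
  obtain ⟨D, h1, h2, h3⟩ := h
  let Θ : Query L := fun I v => (∀ i ∈ s, ∀ j ∈ s, Conn I (v i) (v j)) ∧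
    ¬ ∃ l ∈ D, ∀ p ∈ l, p.2 I v
  have hL : Loc T s Θ := by
    refine ⟨fun I v hv => hv.1, ?_, ?_⟩
    · rintro I v J w hA hG ⟨_, hv⟩
      refine ⟨hG.symm.1, ?_⟩
      rintro ⟨l, hl, hl2⟩
      refine hv ⟨l, hl, fun p hp => ?_⟩
      exact (h2 l hl p hp).1.tr J w I v hA.symm (hG.symm.mono (h2 l hl p hp).2) (hl2 p hp)
    · intro v
      have e : {c : Code L | Θ (toI c) v} =
          (⋂ i ∈ s, ⋂ j ∈ s, {c : Code L | Conn (toI c) (v i) (v j)}) ∩
            (⋃ l ∈ D, ⋂ p ∈ {p | p ∈ l}, {c : Code L | p.2 (toI c) v})ᶜ := by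
        ext c
        simp only [Θ, mem_ofPred_eq, mem_inter_iff, mem_iInter, mem_compl_iff, mem_iUnion,
          exists_prop]
      rw [e]
      refine MeasurableSet.inter (Finset.measurableSet_biInter _ fun i _ =>
        Finset.measurableSet_biInter _ fun j _ => measurableSet_conn _ _)
        (MeasurableSet.compl (MeasurableSet.biUnion h1 fun l hl => ?_))
      exact MeasurableSet.biInter (List.finite_toSet l).countable fun p hp =>
        (h2 l hl p hp).1.meas v
  have h4 := Nf.single (K := K) hs hL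
  obtain ⟨D', k1, k2, k3⟩ := h4
  refine ⟨D', k1, k2, fun M N hM v => ?_⟩
  rw [← k3 M N hM v]
  simp only [Θ]
  rw [h3 M N hM v]

end Pool.Agent.H623R2.VC
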