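import Pool.Agent.H623R2.VC.Logic

set_option autoImplicit false

/-!
Normal forms: existential quantifiers and countable conjunctions.
-/

namespace Pool.Agent.H623R2.VC

open Set MeasureTheory

variable {L : FirstOrder.Language.{0, 0}}

/-! ### Existential quantifiers -/

/-- The merged entry. -/
def merg (l : List (Finset ℕ × Query L)) (y : ℕ) : Query L := fun I v =>
  ∃ b, ∀ p ∈ l, y ∈ p.1 → p.2 I (Function.update v y b)

open Classical in
/-- The variables of the merged entry. -/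
noncomputable def merv (l : List (Finset ℕ × Query L)) (y : ℕ) (F : Finset ℕ) : Finset ℕ :=
  F.filter (fun i => ∃ p ∈ l, y ∈ p.1 ∧ i ∈ p.1 ∧ i ≠ y)

theorem mem_merv {l : List (Finset ℕ × Query L)} {y : ℕ} {F : Finset ℕ} {i : ℕ} :
    i ∈ merv l y F ↔ i ∈ F ∧ ∃ p ∈ l, y ∈ p.1 ∧ i ∈ p.1 ∧ i ≠ y := by
  classical
  rw [merv, Finset.mem_filter]

theorem merg_meas {T : Set (Interp L ℕ → Prop)} {l : List (Finset ℕ × Query L)} {y : ℕ}
    (hl : ∀ p ∈ l, Loc T p.1 p.2) (v : ℕ → ℕ) : MeasurableSet {c : Code L | merg l y (toI c) v} := by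
  have e : {c : Code L | merg l y (toI c) v} =
      ⋃ b, ⋂ p ∈ {p | p ∈ l ∧ y ∈ p.1}, {c : Code L | p.2 (toI c) (Function.update v y b)} := by
    ext c
    simp only [merg, mem_ofPred_eq, mem_iUnion, mem_iInter, and_imp]
  rw [e]
  refine MeasurableSet.iUnion fun b => MeasurableSet.biInter ?_ fun p hp => (hl p hp.1).meas _
  exact ((List.finite_toSet l).subset fun p hp => hp.1).countable

theorem GI.upd {A B : Finset ℕ} {I J : Interp L ℕ} {v w : ℕ → ℕ} {g : ℕ → ℕ} {y b : ℕ}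
    (hc : ∀ i ∈ A, ∀ j ∈ A, Conn I (Function.update v y b i) (Function.update v y b j))
    (hb : CIso I J g b) (hA : ∀ i ∈ A, i ≠ y → i ∈ B)
    (hB : ∀ i ∈ B, CIso I J g (v i) ∧ g (v i) = w i) :
    GI A I (Function.update v y b) J (Function.update w y (g b)) := by
  refine ⟨hc, g, fun i hi => ?_⟩
  by_cases h : i = y
  · subst h
    rw [Function.update_self, Function.update_self]
    exact ⟨hb, rfl⟩
  · rw [Function.update_of_ne h, Function.update_of_ne h]
    exact hB i (hA i hi h)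

theorem Nf.ex {K : Set (Code L)} {T : Set (Interp L ℕ → Prop)} (hG : Good K T) {F : Finset ℕ}
    {y : ℕ} {Φ : Query L} (h : Nf K T (insert y F) Φ) :
    ∃ T', Good K T' ∧ Nf K T' F (fun I v => ∃ b, Φ I (Function.update v y b)) := by
  classical
  obtain ⟨D, h1, h2, h3⟩ := h
  let T' : Set (Interp L ℕ → Prop) :=
    T ∪ (fun l => fun I => merg l y I (fun _ => 0)) '' {l ∈ D | merv l y F = ∅}
  have hTT' : T ⊆ T' := subset_union_left
  -- entries of a list with empty `merv`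
  have hsub : ∀ l ∈ D, ∀ p ∈ l, ∀ i ∈ p.1, y ∈ p.1 → i ≠ y → i ∈ merv l y F := by
    intro l hl p hp i hi hy hne
    refine mem_merv.2 ⟨?_, p, hp, hy, hi, hne⟩
    have := (h2 l hl p hp).2 hi
    rw [Finset.mem_insert] at this
    exact this.resolve_left hne
  -- transfer of the merged entry when `merv` is empty
  have htr0 : ∀ l ∈ D, merv l y F = ∅ → ∀ (I J : Interp L ℕ) (a b : ℕ), Ag T I J → CEq I a J b →
      (∀ p ∈ l, y ∈ p.1 → p.2 I (Function.update (fun _ => 0) y a)) →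
      merg l y J (fun _ => 0) := by
    rintro l hl he I J a b hA ⟨g, hg, _⟩ h4
    refine ⟨g a, fun p hp hy => ?_⟩
    refine (h2 l hl p hp).1.tr I _ J _ hA (GI.upd (B := ∅) ((h2 l hl p hp).1.conn I _ (h4 p hp hy))
      hg (fun i hi hne => ?_) (fun i hi => absurd hi (Finset.notMem_empty i))) (h4 p hp hy)
    rw [← he]
    exact hsub l hl p hp i hi hy hne
  have hG' : Good K T' := by
    refine ⟨hG.ctbl.union ((h1.mono (sep_subset _ _)).image _), ?_, ?_⟩
    · rintro s (hs | ⟨l, ⟨hl, _⟩, rfl⟩)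
      · exact hG.meas s hs
      · exact merg_meas (fun p hp => (h2 l hl p hp).1) _
    · intro M N hM
      have hM' : Mix K T M N := hM.mono hTT'
      have hA0 := hG.agr M N hM'
      rintro s (hs | ⟨l, ⟨hl, he⟩, rfl⟩)
      · exact hA0 s hs
      · constructor
        · rintro ⟨a, ha⟩
          obtain ⟨b, hb⟩ := hM.sub a
          exact htr0 l hl he _ _ a b hA0 hb ha
        · rintro ⟨a, ha⟩
          obtain ⟨i, b, hb⟩ := hM.cov a
          have h5 : merg l y (toI (M i)) (fun _ => 0) :=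
            htr0 l hl he _ _ a b (hA0.symm.trans (hM'.ag i)) hb ha
          exact (hM.ag i _ (Or.inr ⟨l, ⟨hl, he⟩, rfl⟩)).2 h5
  have hloc : ∀ l ∈ D, Loc T' (merv l y F) (merg l y) := by
    intro l hl
    refine ⟨?_, ?_, merg_meas (fun p hp => (h2 l hl p hp).1)⟩
    · rintro I v ⟨b, hb⟩
      have key : ∀ i ∈ merv l y F, Conn I (v i) b := by
        intro i hi
        obtain ⟨_, p, hp, hy, hi2, hne⟩ := mem_merv.1 hi
        have := (h2 l hl p hp).1.conn I _ (hb p hp hy) i hi2 y hy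
        rwa [Function.update_self, Function.update_of_ne hne] at this
      intro i hi j hj
      exact (key i hi).trans (key j hj).symm
    · rintro I v J w hA ⟨hc, g, hg⟩ ⟨b, hb⟩
      by_cases he : merv l y F = ∅
      · have hind : ∀ (H : Interp L ℕ) (v w : ℕ → ℕ), merg l y H v → merg l y H w := by
          rintro H v w ⟨b, hb⟩
          refine ⟨b, fun p hp hy => ?_⟩
          refine (h2 l hl p hp).1.congr (fun i hi => ?_) (hb p hp hy)
          by_cases hne : i = y
          · subst hne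
            simp
          · have := hsub l hl p hp i hi hy hne
            rw [he] at this
            exact absurd this (Finset.notMem_empty i)
        have h4 : merg l y I (fun _ => 0) := hind I v _ ⟨b, hb⟩
        exact hind J _ w ((hA _ (Or.inr ⟨l, ⟨hl, he⟩, rfl⟩)).1 h4)
      · obtain ⟨i0, hi0⟩ := Finset.nonempty_iff_ne_empty.2 he
        have key : ∀ i ∈ merv l y F, Conn I (v i) b := by
          intro i hi
          obtain ⟨_, p, hp, hy, hi2, hne⟩ := mem_merv.1 hi
          have := (h2 l hl p hp).1.conn I _ (hb p hp hy) i hi2 y hy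
          rwa [Function.update_self, Function.update_of_ne hne] at this
        have hgb : CIso I J g b := (hg i0 hi0).1.move (key i0 hi0)
        refine ⟨g b, fun p hp hy => ?_⟩
        exact (h2 l hl p hp).1.tr I _ J _ (hA.mono hTT')
          (GI.upd ((h2 l hl p hp).1.conn I _ (hb p hp hy)) hgb
            (fun i hi hne => hsub l hl p hp i hi hy hne) hg) (hb p hp hy)
  refine ⟨T', hG', (fun l => (merv l y F, merg l y) :: l.filter (fun p => y ∉ p.1)) '' D,
    h1.image _, ?_, ?_⟩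
  · rintro _ ⟨l, hl, rfl⟩ p hp
    rcases List.mem_cons.1 hp with rfl | hp
    · exact ⟨hloc l hl, fun i hi => (mem_merv.1 hi).1⟩
    · rw [List.mem_filter, decide_eq_true_eq] at hp
      refine ⟨(h2 l hl p hp.1).1.mono hTT', fun i hi => ?_⟩
      have := (h2 l hl p hp.1).2 hi
      rw [Finset.mem_insert] at this
      refine this.resolve_left ?_
      rintro rfl
      exact hp.2 hi
  · intro M N hM v
    have hM' : Mix K T M N := hM.mono hTT'
    constructor
    · rintro ⟨b, hb⟩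
      obtain ⟨l, hl, h4⟩ := (h3 M N hM' _).1 hb
      refine ⟨_, ⟨l, hl, rfl⟩, fun p hp => ?_⟩
      rcases List.mem_cons.1 hp with rfl | hp
      · exact ⟨b, fun p hp _ => h4 p hp⟩
      · rw [List.mem_filter, decide_eq_true_eq] at hp
        refine (h2 l hl p hp.1).1.congr (fun i hi => ?_) (h4 p hp.1)
        have hne : i ≠ y := by
          rintro rfl
          exact hp.2 hi
        rw [Function.update_of_ne hne]
    · rintro ⟨_, ⟨l, hl, rfl⟩, h4⟩
      obtain ⟨b, hb⟩ := h4 _ List.mem_cons_self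
      refine ⟨b, (h3 M N hM' _).2 ⟨l, hl, fun p hp => ?_⟩⟩
      by_cases hy : y ∈ p.1
      · exact hb p hp hy
      · have h5 := h4 p (List.mem_cons_of_mem _ (by
          rw [List.mem_filter, decide_eq_true_eq]
          exact ⟨hp, hy⟩))
        refine (h2 l hl p hp).1.congr (fun i hi => ?_) h5
        have hne : i ≠ y := by
          rintro rfl
          exact hy hi
        rw [Function.update_of_ne hne]

/-! ### Countable conjunctions -/

/-- Extension of an assignment by zero. -/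
def ext0 (F : Finset ℕ) (w : F → ℕ) : ℕ → ℕ := fun i => if h : i ∈ F then w ⟨i, h⟩ else 0

theorem ext0_mem {F : Finset ℕ} {w : F → ℕ} {i : ℕ} (h : i ∈ F) : ext0 F w i = w ⟨i, h⟩ := by
  rw [ext0, dif_pos h]

open Classical in
/-- The local type. -/
noncomputable def ltp (G : Set (Finset ℕ × Query L)) (c : Finset ℕ) (I : Interp L ℕ)
    (v : ℕ → ℕ) : G → Bool := fun p => decide (p.1.1 ⊆ c ∧ p.1.2 I v)

theorem ltp_meas {T : Set (Interp L ℕ → Prop)} {G : Set (Finset ℕ × Query L)}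
    (hG : ∀ p ∈ G, Loc T p.1 p.2) (c : Finset ℕ) (v : ℕ → ℕ) :
    Measurable fun m : Code L => ltp G c (toI m) v := by
  classical
  refine measurable_pi_lambda _ fun p => ?_
  refine measurable_to_bool ?_
  have : (fun m : Code L => ltp G c (toI m) v p) ⁻¹' {true} =
      {m : Code L | p.1.1 ⊆ c} ∩ {m | p.1.2 (toI m) v} := by
    ext m
    simp [ltp]
  rw [this]
  exact (MeasurableSet.const _).inter ((hG p.1 p.2).meas v)

theorem ltp_eq {G : Set (Finset ℕ × Query L)} {c : Finset ℕ} {I J : Interp L ℕ} {v w : ℕ → ℕ}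
    (h : ∀ p ∈ G, p.1 ⊆ c → (p.2 I v ↔ p.2 J w)) : ltp G c I v = ltp G c J w := by
  classical
  funext p
  rw [ltp, ltp, decide_eq_decide]
  constructor
  · rintro ⟨h1, h2⟩
    exact ⟨h1, (h p.1 p.2 h1).1 h2⟩
  · rintro ⟨h1, h2⟩
    exact ⟨h1, (h p.1 p.2 h1).2 h2⟩

/-- The query: the local type contains `ρ`. -/
def eqr (G : Set (Finset ℕ × Query L)) (c : Finset ℕ) (ρ : G → Bool) : Query L := fun I v =>
  (∀ i ∈ c, ∀ j ∈ c, Conn I (v i) (v j)) ∧ ∀ p : G, p.1.1 ⊆ c → ρ p = true → p.1.2 I v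

theorem eqr_loc [∀ n, Countable (L.Relations n)] {T : Set (Interp L ℕ → Prop)}
    {G : Set (Finset ℕ × Query L)} (hGc : G.Countable)
    (hG : ∀ p ∈ G, Loc T p.1 p.2) (c : Finset ℕ) (ρ : G → Bool) : Loc T c (eqr G c ρ) := by
  refine ⟨fun I v hv => hv.1, ?_, ?_⟩
  · rintro I v J w hA hGI ⟨_, hv⟩
    refine ⟨hGI.symm.1, fun p hp hρ => ?_⟩
    exact (hG p.1 p.2).tr I v J w hA (hGI.mono hp) (hv p hp hρ)
  · intro v
    have := hGc.to_subtype
    have e : {m : Code L | eqr G c ρ (toI m) v} =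
        (⋂ i ∈ c, ⋂ j ∈ c, {m : Code L | Conn (toI m) (v i) (v j)}) ∩
          ⋂ p ∈ {p : G | p.1.1 ⊆ c ∧ ρ p = true}, {m : Code L | p.1.2 (toI m) v} := by
      ext m
      simp only [eqr, mem_ofPred_eq, mem_inter_iff, mem_iInter, and_imp]
    rw [e]
    refine MeasurableSet.inter (Finset.measurableSet_biInter _ fun i _ =>
      Finset.measurableSet_biInter _ fun j _ => measurableSet_conn _ _) ?_
    exact MeasurableSet.biInter (to_countable _) fun p _ => (hG p.1 p.2).meas v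

theorem GIso.symm {M M' : Type} {I : Interp L M} {J : Interp L M'} (h : GIso I J) :
    GIso J I := by
  obtain ⟨g, hg⟩ := h
  refine ⟨g.symm, fun n R t => ?_⟩
  rw [hg]
  simp

theorem tr_of_iso {T : Set (Interp L ℕ → Prop)} {A : Finset ℕ} {Θ : Query L} (hΘ : Loc T A Θ)
    {I J : Interp L ℕ} (hA : Ag T I J) (g : ℕ ≃ ℕ)
    (hg : ∀ n (R : L.Relations n) (t : Fin n → ℕ), I n R t ↔ J n R (fun k => g (t k)))
    {v w : ℕ → ℕ} (hvw : ∀ i ∈ A, g (v i) = w i) (h : Θ I v) : Θ J w :=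
  hΘ.tr I v J w hA ⟨hΘ.conn I v h, g, fun i hi => ⟨GIso.ciso g hg (v i), hvw i hi⟩⟩ h

theorem Nf.all [∀ n, Countable (L.Relations n)] {K : Set (Code L)} (hK : MeasurableSet K)
    (hP : ¬ Perf K) {T : Set (Interp L ℕ → Prop)} (hT : Good K T) {F : Finset ℕ}
    {Φ : ℕ → Query L} (h : ∀ k, Nf K T F (Φ k)) : Nf K T F (fun I v => ∀ k, Φ k I v) := by
  classical
  choose D h1 h2 h3 using h
  let G : Set (Finset ℕ × Query L) := ⋃ k, ⋃ l ∈ D k, {p | p ∈ l}
  have hGc : G.Countable := countable_iUnion fun k => (h1 k).biUnion fun l _ =>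
    (List.finite_toSet l).countable
  have hGm : ∀ k, ∀ l ∈ D k, ∀ p ∈ l, p ∈ G := fun k l hl p hp =>
    mem_iUnion.2 ⟨k, mem_iUnion₂.2 ⟨l, hl, hp⟩⟩
  have hGL : ∀ p ∈ G, Loc T p.1 p.2 ∧ p.1 ⊆ F := by
    intro p hp
    obtain ⟨k, hk⟩ := mem_iUnion.1 hp
    obtain ⟨l, hl, hp⟩ := mem_iUnion₂.1 hk
    exact h2 k l hl p hp
  have hGL1 : ∀ p ∈ G, Loc T p.1 p.2 := fun p hp => (hGL p hp).1
  have hcG : Countable G := hGc.to_subtype
  -- countably many values of the local types
  let V : Finset ℕ → Set (G → Bool) := fun c =>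
    {ρ | ∃ w : F → ℕ, ∃ m ∈ K, ltp G c (toI m) (ext0 F w) = ρ}
  have hV : ∀ c, (V c).Countable := by
    intro c
    by_contra hc
    refine hP (perf_of_uncountable hK (ι := F → ℕ) (Z := G → Bool)
      (fun w m => ltp G c (toI m) (ext0 F w)) (fun w => ltp_meas hGL1 c _) ?_ hc)
    rintro m hm m' hm' ⟨g, hg⟩ w
    refine ⟨fun i => g (w i), ?_⟩
    have hA : Ag T (toI m) (toI m') := hT.iso hm ⟨g, hg⟩
    have hg' : ∀ n (R : L.Relations n) (t : Fin n → ℕ), toI m' n R t ↔
        toI m n R (fun k => g.symm (t k)) := by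
      intro n R t
      rw [hg]
      simp
    refine ltp_eq fun p hp _ => ⟨fun h4 => ?_, fun h4 => ?_⟩
    · refine tr_of_iso (hGL1 p hp) hA g hg (fun i hi => ?_) h4
      rw [ext0_mem ((hGL p hp).2 hi), ext0_mem ((hGL p hp).2 hi)]
    · refine tr_of_iso (hGL1 p hp) hA.symm g.symm hg' (fun i hi => ?_) h4
      rw [ext0_mem ((hGL p hp).2 hi), ext0_mem ((hGL p hp).2 hi)]
      simp
  let W : Set (Finset ℕ × (G → Bool)) := {q | q.1 ⊆ F ∧ q.2 ∈ V q.1}
  have hW : W.Countable := by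
    have e : W ⊆ ⋃ c : Finset ℕ, (fun ρ => (c, ρ)) '' (V c) := by
      rintro ⟨c, ρ⟩ ⟨_, h4⟩
      exact mem_iUnion.2 ⟨c, ρ, h4, rfl⟩
    exact (countable_iUnion fun c => (hV c).image _).mono e
  have hWc : Countable W := hW.to_subtype
  let cond : List W → Prop := fun ql => ∀ k, ∃ l ∈ D k, ∀ p ∈ l, ∃ q ∈ ql, p.1 ⊆ q.1.1 ∧
    ∃ hp : p ∈ G, q.1.2 ⟨p, hp⟩ = true
  refine ⟨(fun ql : List W => ql.map (fun q => (q.1.1, eqr G q.1.1 q.1.2))) '' {ql | cond ql},
    (to_countable _).image _, ?_, ?_⟩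
  · rintro _ ⟨ql, _, rfl⟩ p hp
    obtain ⟨q, _, rfl⟩ := List.mem_map.1 hp
    exact ⟨eqr_loc hGc hGL1 _ _, q.2.1⟩
  · intro M N hM v
    have hA0 := hT.agr M N hM
    constructor
    · intro hΦ
      have hD : ∀ k, ∃ l ∈ D k, ∀ p ∈ l, p.2 N v := fun k => (h3 k M N hM v).1 (hΦ k)
      -- the values occur
      have hval : ∀ c : Finset ℕ, c ⊆ F → (∀ i ∈ c, ∀ j ∈ c, Conn N (v i) (v j)) →
          ltp G c N v ∈ V c := by
        intro c hcF hcc
        rcases c.eq_empty_or_nonempty with rfl | ⟨i0, hi0⟩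
        · refine ⟨fun _ => 0, M 0, hM.mem 0, ?_⟩
          refine ltp_eq fun p hp hpc => ?_
          refine (hGL1 p hp).iff hA0 ?_
          rw [Finset.subset_empty.1 hpc]
          exact GI.empty _ _ _ _
        · obtain ⟨i, b, g, hg, _⟩ := hM.cov (v i0)
          refine ⟨fun j => g (v j), M i, hM.mem i, ?_⟩
          have hA : Ag T N (toI (M i)) := hA0.symm.trans (hM.ag i)
          have hGI : GI c N v (toI (M i)) (ext0 F fun j => g (v j)) := by
            refine ⟨hcc, g, fun j hj => ⟨hg.move (hcc i0 hi0 j hj), ?_⟩⟩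
            rw [ext0_mem (hcF hj)]
          refine ltp_eq fun p hp hpc => ?_
          exact ((hGL1 p hp).iff hA (hGI.mono hpc)).symm
      let C : Finset (Finset ℕ) :=
        F.powerset.filter (fun c => ∀ i ∈ c, ∀ j ∈ c, Conn N (v i) (v j))
      have hC : ∀ c, c ∈ C ↔ c ⊆ F ∧ ∀ i ∈ c, ∀ j ∈ c, Conn N (v i) (v j) := by
        intro c
        rw [Finset.mem_filter, Finset.mem_powerset]
      let f : C → W := fun c =>
        ⟨(c.1, ltp G c.1 N v), ((hC c.1).1 c.2).1, hval c.1 ((hC c.1).1 c.2).1 ((hC c.1).1 c.2).2⟩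
      let ql : List W := (Finset.univ : Finset C).toList.map f
      have hmem : ∀ c : C, f c ∈ ql := fun c =>
        List.mem_map.2 ⟨c, Finset.mem_toList.2 (Finset.mem_univ c), rfl⟩
      refine ⟨_, ⟨ql, ?_, rfl⟩, ?_⟩
      · intro k
        obtain ⟨l, hl, h4⟩ := hD k
        refine ⟨l, hl, fun p hp => ?_⟩
        have hpG := hGm k l hl p hp
        have hpC : p.1 ∈ C := (hC _).2 ⟨(hGL p hpG).2, (hGL1 p hpG).conn N v (h4 p hp)⟩
        refine ⟨f ⟨p.1, hpC⟩, hmem _, Finset.Subset.refl _, hpG, ?_⟩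
        change ltp G p.1 N v ⟨p, hpG⟩ = true
        simp only [ltp, decide_eq_true_eq]
        exact ⟨Finset.Subset.refl _, h4 p hp⟩
      · intro p hp
        obtain ⟨q, hq, rfl⟩ := List.mem_map.1 hp
        obtain ⟨c, _, rfl⟩ := List.mem_map.1 hq
        refine ⟨((hC c.1).1 c.2).2, fun p hp hρ => ?_⟩
        change ltp G c.1 N v p = true at hρ
        simp only [ltp, decide_eq_true_eq] at hρ
        exact hρ.2
    · rintro ⟨_, ⟨ql, hql, rfl⟩, h4⟩ k
      obtain ⟨l, hl, h5⟩ := hql k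
      refine (h3 k M N hM v).2 ⟨l, hl, fun p hp => ?_⟩
      obtain ⟨q, hq, hs, hpG, hρ⟩ := h5 p hp
      have h6 := h4 _ (List.mem_map.2 ⟨q, hq, rfl⟩)
      exact h6.2 ⟨p, hpG⟩ hs hρ

end Pool.Agent.H623R2.VC
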